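import Pool.Agent.P.MP_5a340a_gt.If3
import Pool.Agent.P.MP_5a340a_gt.OnlyIf

/-!
The exact range of validity of the log-concavity inequality for coordinate-wise dilates.
-/

set_option autoImplicit false
open MeasureTheory ProbabilityTheory

namespace Pool.Agent.Results.MP_5a340a_gt.ExactClass

theorem result :
    ∀ (n : ℕ) (μ : Measure (Fin n → ℝ)), IsGaussian μ → ∫ x, x ∂μ = 0 →
      ∀ (s t : Fin n → ℝ) (a : ℝ), 0 < a → a < 1 →
      ((∀ K : Set (Fin n → ℝ), Convex ℝ K → IsCompact K → (interior K).Nonempty →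
          (∀ x ∈ K, -x ∈ K) →
          (μ {x | (fun i => Real.exp (-(a • s + (1 - a) • t) i) * x i) ∈ K}).toReal ≥
            (μ {x | (fun i => Real.exp (-s i) * x i) ∈ K}).toReal ^ a *
            (μ {x | (fun i => Real.exp (-t i) * x i) ∈ K}).toReal ^ (1 - a)) ↔
        ∀ i j, s i - t i ≠ s j - t j → ∫ x, x i * x j ∂μ = 0) := by
  intro n μ hμ h0 s t a a0 a1
  refine ⟨fun h i j hd => ?_, fun h K cK hK _ sK =>
    P.MP_5a340a_gt.if_part μ h0 s t h hK.isClosed cK sK a0.le a1.le⟩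
  by_contra hB
  obtain ⟨K, k1, k2, k3, k4, k5⟩ := P.MP_5a340a_gt.Strip.only_if μ h0 s t a0 a1 i j hd hB
  exact absurd (h K k1 k2 k3 k4) (not_le.2 k5)

end Pool.Agent.Results.MP_5a340a_gt.ExactClass
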