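import Pool.Agent.P.MP_5a340a_gt.S3

/-!
Dimension-free semi-log-concavity for coordinate-wise dilates, with the best constant.
-/

set_option autoImplicit false
open MeasureTheory ProbabilityTheory

namespace Pool.Agent.Results.MP_5a340a_gt.SemiConcave

theorem result :
    ∀ (a c : ℝ), 0 < a → a < 1 →
      ((∀ (n : ℕ) (μ : Measure (Fin n → ℝ)), IsGaussian μ → ∫ x, x ∂μ = 0 →
          ∀ S : Matrix (Fin n) (Fin n) ℝ, (∀ i j, S i j = ∫ x, x i * x j ∂μ) → S.det ≠ 0 →
          ∀ (s t : Fin n → ℝ) (K : Set (Fin n → ℝ)), Convex ℝ K → IsCompact K →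
          (interior K).Nonempty → (∀ x ∈ K, -x ∈ K) →
          (μ {x | (fun i => Real.exp (-(a • s + (1 - a) • t) i) * x i) ∈ K}).toReal ≥
            Real.exp (-(c * (a * (1 - a)) *
              (Matrix.trace (S⁻¹ * Matrix.diagonal (s - t) * S * Matrix.diagonal (s - t)) -
                ∑ i, (s i - t i) ^ 2))) *
            ((μ {x | (fun i => Real.exp (-s i) * x i) ∈ K}).toReal ^ a *
              (μ {x | (fun i => Real.exp (-t i) * x i) ∈ K}).toReal ^ (1 - a))) ↔
        1 / 16 ≤ c) := by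
  intro a c a0 a1
  refine ⟨fun h => P.MP_5a340a_gt.Semi.sharp a0 a1 fun μ hμ h0 S hS hd s t => h 2 μ hμ h0 S hS hd s t,
    fun hc n μ hμ h0 S hS hd s t K cK hK iK sK => ?_⟩
  have e : S = P.MP_5a340a_gt.covM μ := Matrix.ext hS
  subst e
  exact P.MP_5a340a_gt.Semi.upper μ h0 hd s t cK hK iK sK a0.le a1.le hc

end Pool.Agent.Results.MP_5a340a_gt.SemiConcave
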