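import Pool.Agent.P.MP_5a340a_gt.D7

/-!
The sharp defect of log-concavity for coordinate-wise dilates in the plane.
-/

set_option autoImplicit false
open MeasureTheory ProbabilityTheory

namespace Pool.Agent.Results.MP_5a340a_gt.SharpDefect

theorem result :
    ∀ (μ : Measure (Fin 2 → ℝ)), IsGaussian μ → ∫ x, x ∂μ = 0 →
      0 < ∫ x, x 0 * x 0 ∂μ → 0 < ∫ x, x 1 * x 1 ∂μ →
      ∀ (a c : ℝ), 0 < a → a < 1 →
      ((∀ (s t : Fin 2 → ℝ) (K : Set (Fin 2 → ℝ)), Convex ℝ K → IsCompact K →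
          (interior K).Nonempty → (∀ x ∈ K, -x ∈ K) →
          (μ {x | (fun i => Real.exp (-(a • s + (1 - a) • t) i) * x i) ∈ K}).toReal ≥
            c * ((μ {x | (fun i => Real.exp (-s i) * x i) ∈ K}).toReal ^ a *
              (μ {x | (fun i => Real.exp (-t i) * x i) ∈ K}).toReal ^ (1 - a))) ↔
        c ≤ (1 - (∫ x, x 0 * x 1 ∂μ) ^ 2 / ((∫ x, x 0 * x 0 ∂μ) * ∫ x, x 1 * x 1 ∂μ)) ^
          (max a (1 - a) / 2)) := by
  intro μ hμ h0 hA hC a c a0 a1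
  exact P.MP_5a340a_gt.Def.uniform μ h0 rfl rfl rfl hA hC a0 a1 c

end Pool.Agent.Results.MP_5a340a_gt.SharpDefect
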