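import Pool.Agent.P.MP_5a340a_gt.D7

/-!
In the plane the best constant for each pair of dilations is the one given by thin strips.
-/

set_option autoImplicit false
open MeasureTheory ProbabilityTheory

namespace Pool.Agent.Results.MP_5a340a_gt.StripsExtremal

theorem result :
    ∀ (μ : Measure (Fin 2 → ℝ)), IsGaussian μ → ∫ x, x ∂μ = 0 →
      (∫ x, x 0 * x 1 ∂μ) ^ 2 < (∫ x, x 0 * x 0 ∂μ) * ∫ x, x 1 * x 1 ∂μ →
      ∀ (s t : Fin 2 → ℝ) (a c : ℝ), 0 < a → a < 1 → 0 < c →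
      ((∀ K : Set (Fin 2 → ℝ), Convex ℝ K → IsCompact K →
          (interior K).Nonempty → (∀ x ∈ K, -x ∈ K) →
          (μ {x | (fun i => Real.exp (-(a • s + (1 - a) • t) i) * x i) ∈ K}).toReal ≥
            c * ((μ {x | (fun i => Real.exp (-s i) * x i) ∈ K}).toReal ^ a *
              (μ {x | (fun i => Real.exp (-t i) * x i) ∈ K}).toReal ^ (1 - a))) ↔
        ∀ u : Fin 2 → ℝ,
          c ^ 2 * ∫ x, (∑ i, u i * (Real.exp (-(a • s + (1 - a) • t) i) * x i)) ^ 2 ∂μ ≤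
            (∫ x, (∑ i, u i * (Real.exp (-s i) * x i)) ^ 2 ∂μ) ^ a *
              (∫ x, (∑ i, u i * (Real.exp (-t i) * x i)) ^ 2 ∂μ) ^ (1 - a)) := by
  intro μ hμ h0 nd s t a c a0 a1 c0
  have e : ∀ τ u : Fin 2 → ℝ, ∫ x, (∑ i, u i * (Real.exp (-τ i) * x i)) ^ 2 ∂μ =
      P.MP_5a340a_gt.Def.VV (∫ x, x 0 * x 0 ∂μ) (∫ x, x 0 * x 1 ∂μ) (∫ x, x 1 * x 1 ∂μ) τ
        (u 0) (u 1) := fun τ u => by
    rw [P.MP_5a340a_gt.Def.VV, ← P.MP_5a340a_gt.Strip.var_lf μ h0 0 1,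
      variance_of_integral_eq_zero (by fun_prop) (P.MP_5a340a_gt.Strip.mean_zero μ h0 _)]
    refine integral_congr_ae (ae_of_all _ fun x => ?_)
    simp only [P.MP_5a340a_gt.Strip.lf_apply, Fin.sum_univ_two]
    ring
  refine (P.MP_5a340a_gt.Def.point μ h0 rfl rfl rfl nd s t a0 a1 c0).trans
    ⟨fun h u => ?_, fun h u v => ?_⟩
  · rw [e, e, e]
    exact h _ _
  · have := h ![u, v]
    rw [e, e, e] at this
    exact this

end Pool.Agent.Results.MP_5a340a_gt.StripsExtremal
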